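import Mathlib
import Pool.Agent.H.MP_9c4169_gt.D

set_option autoImplicit false

namespace Pool.Agent.H.MP_7b7e09_gt

open Set Filter Cardinal Pool.Agent.H.MP_9c4169_gt

/-- The polarized relation for open omega-covers of `Z`, for every number of colours. -/
def Pol (Z : Type) [TopologicalSpace Z] : Prop :=
  ∀ k : ℕ, 0 < k → ∀ 𝒰₁ ∈ Om (Op Z), ∀ 𝒰₂ ∈ Om (Op Z), ∀ f : Set Z → Set Z → Fin k,
    ∃ 𝒱₁ ⊆ 𝒰₁, ∃ 𝒱₂ ⊆ 𝒰₂, 𝒱₁ ∈ Om (Op Z) ∧ 𝒱₂ ∈ Om (Op Z) ∧ (image2 f 𝒱₁ 𝒱₂).ncard < 3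

/-- the dominating number -/
noncomputable def dd : Cardinal.{0} :=
  sInf {c | ∃ D : Set (ℕ → ℕ), (∀ f : ℕ → ℕ, ∃ g ∈ D, ∀ᶠ n in atTop, f n ≤ g n) ∧ #D = c}

/-- the ultrafilter number -/
noncomputable def uu : Cardinal.{0} :=
  sInf {c | ∃ (p : Ultrafilter ℕ) (B : Set (Set ℕ)), (p : Filter ℕ) ≤ cofinite ∧
    (∀ A, A ∈ p ↔ ∃ b ∈ B, b ⊆ A) ∧ #B = c}

theorem omct {Z : Type} [TopologicalSpace Z] [SecondCountableTopology Z] {𝒰 : Set (Set Z)}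
    (h : 𝒰 ∈ Om (Op Z)) : ∃ u : ℕ → Set Z, (∀ n, u n ∈ 𝒰) ∧
      ∀ F : Set Z, F.Finite → ∃ n, F ⊆ u n := by
  have h1 : ∀ S : Set (Set Z), ∃ U ∈ 𝒰, (∃ W ∈ 𝒰, ⋃₀ S ⊆ W) → ⋃₀ S ⊆ U := fun S => by
    by_cases h2 : ∃ W ∈ 𝒰, ⋃₀ S ⊆ W
    · exact h2.imp fun W hW => ⟨hW.1, fun _ => hW.2⟩
    · exact (h.2 ∅ finite_empty).imp fun W hW => ⟨hW.1, fun h => (h2 h).elim⟩
  choose π h2 h3 using h1
  obtain ⟨σ, hσ⟩ := (countable_setOf_finite_subset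
    (TopologicalSpace.countable_countableBasis Z)).exists_eq_range
      ⟨∅, finite_empty, empty_subset _⟩
  refine ⟨fun n => π (σ n), fun n => h2 _, fun F hF => ?_⟩
  obtain ⟨W, w1, w2⟩ := h.2 F hF
  choose! B b1 b2 b3 using fun z (hz : z ∈ W) =>
    (TopologicalSpace.isBasis_countableBasis Z).exists_subset_of_mem_open hz (h.1.1 w1)
  obtain ⟨n, hn⟩ := hσ.le (show B '' F ∈ _ from ⟨hF.image _, by
    rintro _ ⟨z, hz, rfl⟩; exact b1 z (w2 hz)⟩)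
  refine ⟨n, fun z hz => h3 _ ⟨W, w1, ?_⟩ ?_⟩
  · rw [hn]
    rintro y ⟨_, ⟨z, hz, rfl⟩, hy⟩
    exact b3 z (w2 hz) hy
  · rw [hn]
    exact ⟨_, ⟨z, hz, rfl⟩, b2 z (w2 hz)⟩

theorem ult {ι α : Type} [Nonempty ι] (G : ι → Set α) (h1 : ∀ i, (G i).Nonempty)
    (h2 : ∀ i j, ∃ k, G k ⊆ G i ∧ G k ⊆ G j) : ∃ p : Ultrafilter α, ∀ i, G i ∈ p := by
  have := iInf_neBot_of_directed' (f := fun i => 𝓟 (G i))
    (fun i j => (h2 i j).imp fun k hk => ⟨principal_mono.2 hk.1, principal_mono.2 hk.2⟩)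
    fun i => principal_neBot_iff.2 (h1 i)
  exact ⟨Ultrafilter.of (⨅ i, 𝓟 (G i)), fun i =>
    Ultrafilter.of_le _ (mem_iInf_of_mem i (mem_principal_self _))⟩

theorem ult2 {Z : Type} (u : ℕ → Set Z) (h1 : ∀ n, u n ≠ Set.univ)
    (h2 : ∀ F : Set Z, F.Finite → ∃ n, F ⊆ u n) : ∃ p : Ultrafilter ℕ,
      (∀ F : Set Z, F.Finite → {n | F ⊆ u n} ∈ p) ∧ ∀ j, {n | j ≤ n} ∈ p := by
  have : Nonempty {F : Set Z // F.Finite} := ⟨⟨∅, finite_empty⟩⟩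
  obtain ⟨p, hp⟩ := ult (fun F : {F : Set Z // F.Finite} => {n | F.1 ⊆ u n}) (fun F => h2 _ F.2)
    fun F G => ⟨⟨_, F.2.union G.2⟩, fun _ h => subset_union_left.trans h,
      fun _ h => subset_union_right.trans h⟩
  refine ⟨p, fun F hF => hp ⟨F, hF⟩, fun j => ?_⟩
  choose z hz using fun n => (ne_univ_iff_exists_notMem _).1 (h1 n)
  refine mem_of_superset (hp ⟨z '' Iio j, (finite_Iio j).image _⟩) fun n hn => ?_
  by_contra h
  exact hz n (hn ⟨n, show n < j from not_le.1 h, rfl⟩)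

def HH (ι : Type) : Prop := ∀ h : ι → ℕ → ℕ, ∃ j : ℕ → ℕ, StrictMono j ∧ ∃ Z : Set ℕ, ∀ i,
  (∃ n ∈ Z, h i (j n) ≤ j (n + 1)) ∧ ∃ n ∉ Z, h i (j n) ≤ j (n + 1)

theorem hnat : HH ℕ := fun h => by
  let j : ℕ → ℕ := fun n => Nat.rec 0 (fun n a => (Finset.range (n + 1)).sup (h · a) + a + 1) n
  have h1 : ∀ i n, i ≤ n → h i (j n) ≤ j (n + 1) := fun i n hn =>
    (Finset.le_sup (f := (h · (j n))) (Finset.mem_range.2 (Nat.lt_succ_of_le hn))).trans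
      ((Nat.le_add_right _ _).trans (Nat.le_succ _))
  refine ⟨j, strictMono_nat_of_lt_succ fun n => by simp only [j]; omega, {n | n % 2 = 0}, fun i =>
    ⟨⟨2 * i, by simp, h1 i _ (by omega)⟩, 2 * i + 1, by simp, h1 i (2 * i + 1) (by omega)⟩⟩

theorem hsm {ι : Type} (hd : #(Finset ι) < dd) (hu : #(Finset ι) < uu) : HH ι := fun h => by
  classical
  let H : Finset ι → ℕ → ℕ := fun F j => F.sup fun i => (Finset.range (j + 1)).sup (h i)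
  have h1 : ∀ F, Monotone (H F) := fun F a b hab => Finset.sup_mono_fun fun i _ =>
    Finset.sup_mono (Finset.range_mono (by omega))
  have h2 : ∀ j, Monotone (H · j) := fun j F G hFG => Finset.sup_mono hFG
  have h3 : ∀ i j, h i j ≤ H {i} j := fun i j => by
    simp only [H, Finset.sup_singleton]
    exact Finset.le_sup (f := h i) (by simp)
  obtain ⟨f, hf⟩ : ∃ f : ℕ → ℕ, ∀ F, ∃ᶠ n in atTop, H F (H F n) < f n := by
    by_contra h4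
    push Not at h4
    refine (hd.trans_le (csInf_le' ⟨range fun F n => H F (H F n), fun f => ?_, rfl⟩)).not_ge
      mk_range_le
    obtain ⟨F, hF⟩ := h4 f
    exact ⟨_, ⟨F, rfl⟩, by simpa using hF⟩
  let g : ℕ → ℕ := fun n => (Finset.range (n + 1)).sup f + n + 1
  have g1 : Monotone g := fun a b hab => by
    have := Finset.sup_mono (f := f) (Finset.range_mono (show a + 1 ≤ b + 1 by omega))
    simp only [g]; omega
  have g2 : ∀ n, f n ≤ g n := fun n => by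
    have := Finset.le_sup (f := f) (Finset.self_mem_range_succ n)
    simp only [g]; omega
  let j : ℕ → ℕ := fun n => g^[n] 0
  have j1 : ∀ n, j (n + 1) = g (j n) := fun n => Function.iterate_succ_apply' _ _ _
  have j2 : StrictMono j := strictMono_nat_of_lt_succ fun n => by rw [j1]; simp only [g]; omega
  let G : Finset ι → Set ℕ := fun F => {n | H F (j n) ≤ j (n + 1)}
  have G1 : ∀ F, (G F).Infinite := fun F => infinite_of_forall_exists_gt fun N => by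
    obtain ⟨m, m1, m2⟩ := frequently_atTop.1 (hf F) (j (N + 1))
    have m3 : ∃ n, m < j (n + 1) := ⟨m, j2.id_le (m + 1)⟩
    have m4 := Nat.find_spec m3
    have m5 : N < Nat.find m3 := (Nat.lt_find_iff _ _).2 fun n hn =>
      not_lt.2 ((j2.monotone (by omega)).trans m1)
    have m6 : j (Nat.find m3) ≤ m := by
      have := Nat.find_min m3 (show Nat.find m3 - 1 < _ by omega)
      rwa [Nat.sub_add_cancel (by omega), not_lt] at this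
    by_cases h4 : H F m ≤ j (Nat.find m3 + 1)
    · exact ⟨_, (h1 F m6).trans h4, m5⟩
    · refine ⟨Nat.find m3 + 1, (h1 F (not_le.1 h4).le).trans (m2.le.trans ((g2 m).trans ?_)),
        by omega⟩
      rw [j1 (_ + 1)]
      exact g1 m4.le
  refine ⟨j, j2, ?_⟩
  by_contra h4
  have h5 : ∀ Z, ∃ F, G F ⊆ Zᶜ ∨ G F ⊆ Z := fun Z => by
    by_contra h5
    push Not at h5
    refine h4 ⟨Z, fun i => ?_⟩
    obtain ⟨⟨n, n1, n2⟩, m, m1, m2⟩ := (h5 {i}).imp not_subset.1 not_subset.1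
    exact ⟨⟨n, not_not.1 n2, (h3 _ _).trans n1⟩, m, m2, (h3 _ _).trans m1⟩
  obtain ⟨p, hp⟩ := ult G (fun F => (G1 F).nonempty) fun F F' => ⟨F ∪ F',
    fun n hn => (h2 _ Finset.subset_union_left).trans hn,
    fun n hn => (h2 _ Finset.subset_union_right).trans hn⟩
  refine (hu.trans_le (csInf_le' ⟨p, range G, fun A hA => ?_, fun A => ⟨fun hA => ?_, ?_⟩,
    rfl⟩)).not_ge mk_range_le
  · obtain ⟨F, hF | hF⟩ := h5 A
    · exact (G1 F (hA.subset hF)).elim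
    · exact mem_of_superset (hp F) hF
  · obtain ⟨F, hF | hF⟩ := h5 A
    · exact (Ultrafilter.compl_mem_iff_notMem.1 (mem_of_superset (hp F) hF) hA).elim
    · exact ⟨_, ⟨F, rfl⟩, hF⟩
  · rintro ⟨_, ⟨F, rfl⟩, hF⟩
    exact mem_of_superset (hp F) hF

theorem col {k : ℕ} (p q : Ultrafilter ℕ) (c : ℕ → ℕ → Fin k) :
    ∃ a, {n | {m | c n m = a} ∈ q} ∈ p := by
  choose b hb using fun n => (q.map (c n)).eq_pure_of_finite
  obtain ⟨a, ha⟩ := (p.map b).eq_pure_of_finite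
  refine ⟨a, mem_of_superset (show b ⁻¹' {a} ∈ p from ?_) fun n hn => ?_⟩
  · rw [← Ultrafilter.mem_map, ha]; simp
  · show c n ⁻¹' {a} ∈ q
    rw [← Ultrafilter.mem_map, hb n]; simpa using hn

theorem om_of {Z : Type} [TopologicalSpace Z] {𝒰 𝒱 : Set (Set Z)} (h : 𝒰 ∈ Om (Op Z))
    (h1 : 𝒱 ⊆ 𝒰) (h2 : ∀ F : Set Z, F.Finite → ∃ U ∈ 𝒱, F ⊆ U) : 𝒱 ∈ Om (Op Z) :=
  ⟨⟨h1.trans h.1.1, eq_univ_of_forall fun z => (h2 {z} (finite_singleton z)).imp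
    fun _ h => ⟨h.1, h.2 rfl⟩, fun h3 => h.1.2.2 (h1 h3)⟩, h2⟩

theorem pol {Z : Type} [TopologicalSpace Z] [SecondCountableTopology Z] {ι : Type} (H : HH ι)
    (K : ι → Set (Set Z)) (k1 : ∀ F : Set Z, F.Finite → ∃ i, F ∈ K i)
    (k2 : ∀ i (u : ℕ → Set Z), (∀ n, IsOpen (u n)) → ∀ S : Set ℕ,
      (∀ F : Set Z, F.Finite → ∃ n ∈ S, F ⊆ u n) → ∃ m, ∀ F ∈ K i, ∃ n ∈ S, n < m ∧ F ⊆ u n) :
    Pol Z := by
  intro k _ 𝒰 hU 𝒱 hV f
  obtain ⟨u, u1, u2⟩ := omct hU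
  obtain ⟨v, v1, v2⟩ := omct hV
  obtain ⟨p, p1, p2⟩ := ult2 u (fun n h => hU.1.2.2 (h ▸ u1 n)) u2
  obtain ⟨q, q1, q2⟩ := ult2 v (fun n h => hV.1.2.2 (h ▸ v1 n)) v2
  obtain ⟨a, ha⟩ := col p q fun n m => f (u n) (v m)
  obtain ⟨b, hb⟩ := col q p fun m n => f (u n) (v m)
  let A : ℕ → Set ℕ := fun j => {n | j ≤ n ∧ {m | f (u n) (v m) = a} ∈ q ∧
    ∀ m ∈ Iio j, {n | f (u n) (v m) = b} ∈ p → f (u n) (v m) = b}
  let B : ℕ → Set ℕ := fun j => {m | j ≤ m ∧ {n | f (u n) (v m) = b} ∈ p ∧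
    ∀ n ∈ Iio j, {m | f (u n) (v m) = a} ∈ q → f (u n) (v m) = a}
  have a1 : ∀ j, A j ∈ p := fun j => inter_mem (p2 j) (inter_mem ha
    ((eventually_all_finite (finite_Iio j)).2 fun m _ => eventually_imp_distrib_left.2 id))
  have b1 : ∀ j, B j ∈ q := fun j => inter_mem (q2 j) (inter_mem hb
    ((eventually_all_finite (finite_Iio j)).2 fun m _ => eventually_imp_distrib_left.2 id))
  choose g hg using fun i j => k2 i u (fun n => hU.1.1 (u1 n)) (A j) fun F hF =>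
    p.nonempty_of_mem (inter_mem (a1 j) (p1 F hF))
  choose h hh using fun i j => k2 i v (fun n => hV.1.1 (v1 n)) (B j) fun F hF =>
    q.nonempty_of_mem (inter_mem (b1 j) (q1 F hF))
  obtain ⟨j, j1, S, j2⟩ := H fun i j => max (g i j) (h i j)
  have s1 : u '' {n | ∃ l ∈ S, n ∈ A (j l) ∧ n < j (l + 1)} ⊆ 𝒰 := by
    rintro _ ⟨n, -, rfl⟩; exact u1 n
  have s2 : v '' {n | ∃ l ∉ S, n ∈ B (j l) ∧ n < j (l + 1)} ⊆ 𝒱 := by
    rintro _ ⟨n, -, rfl⟩; exact v1 n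
  refine ⟨_, s1, _, s2, om_of hU s1 fun F hF => ?_, om_of hV s2 fun F hF => ?_,
    (ncard_le_ncard (t := {a, b}) ?_).trans_lt ((ncard_insert_le _ _).trans_lt (by simp))⟩
  · obtain ⟨i, hi⟩ := k1 F hF
    obtain ⟨l, l1, l2⟩ := (j2 i).1
    obtain ⟨n, n1, n2, n3⟩ := hg i (j l) F hi
    exact ⟨_, ⟨n, ⟨l, l1, n1, n2.trans_le (le_of_max_le_left l2)⟩, rfl⟩, n3⟩
  · obtain ⟨i, hi⟩ := k1 F hF
    obtain ⟨l, l1, l2⟩ := (j2 i).2
    obtain ⟨n, n1, n2, n3⟩ := hh i (j l) F hi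
    exact ⟨_, ⟨n, ⟨l, l1, n1, n2.trans_le (le_of_max_le_right l2)⟩, rfl⟩, n3⟩
  · rintro _ ⟨_, ⟨n, ⟨l, l1, n1, n2⟩, rfl⟩, _, ⟨m, ⟨l', l2, m1, m2⟩, rfl⟩, rfl⟩
    rcases lt_trichotomy l l' with h | rfl | h
    · exact Or.inl (m1.2.2 n (n2.trans_le (j1.monotone h)) n1.2.1)
    · exact (l2 l1).elim
    · exact Or.inr (n1.2.2 m (m2.trans_le (j1.monotone h)) m1.2.1)

theorem cpt (Z : Type) [TopologicalSpace Z] [SecondCountableTopology Z] [CompactSpace Z] :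
    Pol Z := by
  refine pol hnat (fun k => {F | ∃ x : Fin k → Z, range x = F}) (fun F hF => ?_)
    fun k u hu S hS => ?_
  · obtain ⟨k, x, -, hx⟩ := hF.fin_param
    exact ⟨k, x, hx⟩
  · obtain ⟨t, ht⟩ := isCompact_univ.elim_finite_subcover
      (fun n : S => Set.univ.pi fun _ : Fin k => u n)
      (fun n => isOpen_set_pi finite_univ fun _ _ => hu n) fun x _ => by
        obtain ⟨n, n1, n2⟩ := hS _ (finite_range x)
        exact mem_iUnion.2 ⟨⟨n, n1⟩, fun i _ => n2 ⟨i, rfl⟩⟩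
    refine ⟨t.sup (·.1) + 1, ?_⟩
    rintro _ ⟨x, rfl⟩
    obtain ⟨n, n1, n2⟩ := mem_iUnion₂.1 (ht (mem_univ x))
    exact ⟨n, n.2, Nat.lt_succ_of_le (Finset.le_sup (f := (·.1)) n1),
      range_subset_iff.2 fun i => n2 i trivial⟩

theorem low (X : Set ℝ) (h : #X < min dd uu) : Pol X := by
  rcases finite_or_infinite X with h1 | h1
  · exact cpt X
  · rw [← mk_finset_of_infinite, ← mk_finset_of_infinite] at h
    refine pol (hsm (h.trans_le (min_le_left _ _)) (h.trans_le (min_le_right _ _)))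
      (fun F => {↑F}) (fun F hF => ⟨hF.toFinset, by simp⟩) fun F u _ S hS => ?_
    obtain ⟨n, n1, n2⟩ := hS F F.finite_toSet
    exact ⟨n + 1, forall_eq.2 ⟨n, n1, by omega, n2⟩⟩

theorem emb {ι : Type} (φ : ι → Set ℕ) (h1 : ∀ n, ∃ i, n ∉ φ i)
    (h2 : ∀ F : Set ι, F.Finite → ∃ n, ∀ i ∈ F, n ∈ φ i) (c : ℕ → ℕ → Fin 3)
    (h3 : ∀ S T : Set ℕ, (∀ i, (S ∩ φ i).Nonempty) → (∀ i, (T ∩ φ i).Nonempty) →
      ∀ a, ∃ n ∈ S, ∃ m ∈ T, c n m = a) : ∃ X : Set ℝ, ¬ Pol X ∧ #X ≤ #ι := by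
  classical
  obtain ⟨e, -, e1, e2⟩ := (isClosed_univ (X := ℝ)).exists_nat_bool_injection_of_not_countable
    Cardinal.not_countable_real
  have e3 : ∀ n, ∃ W, IsOpen W ∧ e ⁻¹' W = {x | x n = true} := fun n =>
    (e1.isClosedEmbedding e2).isInducing.isOpen_iff.1
      ((isOpen_discrete {true}).preimage (continuous_apply (A := fun _ : ℕ => Bool) n))
  choose W w1 w2 using e3
  let ψ : ι → ℝ := fun i => e fun n => decide (n ∈ φ i)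
  let u : ℕ → Set (range ψ) := fun n => Subtype.val ⁻¹' W n
  have w3 : ∀ i n, (⟨_, i, rfl⟩ : range ψ) ∈ u n ↔ n ∈ φ i := fun i n =>
    (Set.ext_iff.1 (w2 n) fun n => decide (n ∈ φ i)).trans (by simp)
  have w4 : ∀ F : Set (range ψ), F.Finite → ∃ U ∈ range u, F ⊆ U := fun F hF => by
    obtain ⟨n, hn⟩ := h2 _ (hF.image (rangeSplitting ψ))
    refine ⟨_, ⟨n, rfl⟩, fun z hz => ?_⟩
    have := (w3 _ _).2 (hn _ ⟨z, hz, rfl⟩)
    simpa only [apply_rangeSplitting] using this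
  have w5 : range u ∈ Om (Op (range ψ)) := ⟨⟨by
    rintro _ ⟨n, rfl⟩; exact (w1 n).preimage continuous_subtype_val,
    eq_univ_of_forall fun z => (w4 {z} (finite_singleton z)).imp fun _ h => ⟨h.1, h.2 rfl⟩,
    fun ⟨n, hn⟩ => (h1 n).elim fun i hi => hi ((w3 i n).1 (hn.ge trivial))⟩, w4⟩
  refine ⟨range ψ, fun h => ?_, mk_range_le⟩
  let r := Function.invFun u
  obtain ⟨𝒱, v1, 𝒲, v2, v3, v4, v5⟩ := h 3 (by omega) _ w5 _ w5 fun U V => c (r U) (r V)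
  have w6 : ∀ 𝒱 ⊆ range u, 𝒱 ∈ Om (Op (range ψ)) → ∀ i, (r '' 𝒱 ∩ φ i).Nonempty :=
    fun 𝒱 v1 v3 i => by
      obtain ⟨U, u1, u2⟩ := v3.2 {⟨_, i, rfl⟩} (finite_singleton _)
      refine ⟨_, ⟨U, u1, rfl⟩, (w3 _ _).1 ?_⟩
      rw [Function.invFun_eq (v1 u1)]
      exact u2 rfl
  rw [eq_univ_of_forall (s := image2 _ 𝒱 𝒲) fun a => ?_] at v5
  · simp at v5
  · obtain ⟨_, ⟨U, u1, rfl⟩, _, ⟨V, u2, rfl⟩, h⟩ := h3 _ _ (w6 _ v1 v3) (w6 _ v2 v4) a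
    exact ⟨U, u1, V, u2, h⟩

theorem upu : ∃ X : Set ℝ, ¬ Pol X ∧ #X ≤ uu := by
  obtain ⟨p, B, p1, p2, p3⟩ := csInf_mem (s := {c | ∃ (p : Ultrafilter ℕ) (B : Set (Set ℕ)),
    (p : Filter ℕ) ≤ cofinite ∧ (∀ A, A ∈ p ↔ ∃ b ∈ B, b ⊆ A) ∧ #B = c})
    ⟨_, hyperfilter ℕ, {A | A ∈ hyperfilter ℕ}, hyperfilter_le_cofinite,
      fun A => ⟨fun h => ⟨A, h, subset_rfl⟩, fun ⟨_, h, h'⟩ => mem_of_superset h h'⟩, rfl⟩
  rw [uu, ← p3]
  have p4 : ∀ S : Set ℕ, (∀ i : B, (S ∩ i.1).Nonempty) → S ∈ p := fun S hS => by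
    by_contra h
    obtain ⟨b, b1, b2⟩ := (p2 _).1 (Ultrafilter.compl_mem_iff_notMem.2 h)
    obtain ⟨n, n1, n2⟩ := hS ⟨b, b1⟩
    exact b2 n2 n1
  refine emb (fun b : B => b.1) (fun n => ?_) (fun F hF => ?_)
    (fun n m => if n < m then 0 else if m < n then 1 else 2) fun S T hS hT a => ?_
  · obtain ⟨b, b1, b2⟩ := (p2 _).1 (p1 (finite_singleton n).compl_mem_cofinite)
    exact ⟨⟨b, b1⟩, fun h => b2 h rfl⟩
  · exact ((eventually_all_finite hF).2 fun b _ =>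
      show ∀ᶠ n in p, n ∈ b.1 from (p2 _).2 ⟨_, b.2, subset_rfl⟩).exists
  · have h := inter_mem (p4 S hS) (p4 T hT)
    obtain ⟨n, hn⟩ := p.nonempty_of_mem h
    obtain ⟨m, m1, m2⟩ := p.nonempty_of_mem (inter_mem h (p1 (finite_Iic n).compl_mem_cofinite))
    have m3 : n < m := not_le.1 m2
    fin_cases a
    · exact ⟨n, hn.1, m, m1.2, by simp [m3]⟩
    · exact ⟨m, m1.1, n, hn.2, by simp [m3, m3.le]⟩
    · exact ⟨n, hn.1, n, hn.2, by simp⟩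

theorem upd : ∃ X : Set ℝ, ¬ Pol X ∧ #X ≤ dd := by
  obtain ⟨D, d1, d2⟩ := csInf_mem (s := {c | ∃ D : Set (ℕ → ℕ),
    (∀ f : ℕ → ℕ, ∃ g ∈ D, ∀ᶠ n in atTop, f n ≤ g n) ∧ #D = c})
    ⟨_, Set.univ, fun f => ⟨f, trivial, by simp⟩, rfl⟩
  have d3 : D.Infinite := fun h => by
    obtain ⟨b, hb⟩ := h.bddAbove
    obtain ⟨g, g1, g2⟩ := d1 fun n => b n + 1
    obtain ⟨n, hn⟩ := g2.exists
    exact (hb g1 n).not_gt hn
  have d4 : #(D × ℕ) = #D := by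
    simpa using mul_aleph0_eq (infinite_iff.1 d3.to_subtype)
  rw [dd, ← d2, ← d4]
  have d5 : ∀ S : Set ℕ, (∀ i : D × ℕ, (S ∩ {a | i.2 ≤ a.unpair.1 ∧
      i.1.1 a.unpair.1 ≤ a.unpair.2}).Nonempty) →
      ∀ k, ∃ n ≥ k, ∀ l, ∃ a ∈ S, a.unpair.1 = n ∧ l ≤ a.unpair.2 := fun S hS k => by
    by_contra h
    push Not at h
    choose! f hf using h
    obtain ⟨g, g1, g2⟩ := d1 f
    obtain ⟨l, hl⟩ := eventually_atTop.1 g2
    obtain ⟨a, a1, a2, a3⟩ := hS (⟨g, g1⟩, max k l)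
    exact (hf _ (le_of_max_le_left a2) a a1 rfl).not_ge ((hl _ (le_of_max_le_right a2)).trans a3)
  refine emb (fun i : D × ℕ => {a | i.2 ≤ a.unpair.1 ∧ i.1.1 a.unpair.1 ≤ a.unpair.2})
    (fun n => ⟨(⟨_, d3.nonempty.some_mem⟩, n.unpair.1 + 1), fun h => by simpa using h.1⟩)
    (fun F hF => ?_) (fun a b => if max a.unpair.1 a.unpair.2 < b.unpair.1 then 0 else
      if max b.unpair.1 b.unpair.2 < a.unpair.1 then 1 else 2) fun S T hS hT a => ?_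
  · obtain ⟨n, hn⟩ := (hF.image fun i => i.2).bddAbove
    obtain ⟨m, hm⟩ := (hF.image fun i => i.1.1 n).bddAbove
    exact ⟨n.pair m, fun i hi => by simpa using ⟨hn ⟨i, hi, rfl⟩, hm ⟨i, hi, rfl⟩⟩⟩
  · obtain ⟨n, -, hn⟩ := d5 S hS 0
    obtain ⟨m, -, hm⟩ := d5 T hT 0
    obtain ⟨x, x1, x2, x3⟩ := hn m
    obtain ⟨y, y1, y2, y3⟩ := hm n
    fin_cases a
    · obtain ⟨m, m1, hm⟩ := d5 T hT (max x.unpair.1 x.unpair.2 + 1)
      obtain ⟨y, y1, y2, -⟩ := hm 0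
      exact ⟨x, x1, y, y1, if_pos (by omega)⟩
    · obtain ⟨m, m1, hm⟩ := d5 S hS (max y.unpair.1 y.unpair.2 + 1)
      obtain ⟨x, x1, x2, -⟩ := hm 0
      exact ⟨x, x1, y, y1, (if_neg (by omega)).trans (if_pos (by omega))⟩
    · exact ⟨x, x1, y, y1, (if_neg (by omega)).trans (if_neg (by omega))⟩

theorem non : IsLeast {c | ∃ X : Set ℝ, ¬ Pol X ∧ #X = c} (min dd uu) := by
  have h : ∀ X : Set ℝ, ¬ Pol X → min dd uu ≤ #X := fun X hX => not_lt.1 fun h => hX (low X h)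
  refine ⟨?_, by rintro _ ⟨X, hX, rfl⟩; exact h X hX⟩
  rcases min_choice dd uu with h1 | h1
  · obtain ⟨X, h2, h3⟩ := upd
    exact ⟨X, h2, (h3.trans h1.ge).antisymm (h X h2)⟩
  · obtain ⟨X, h2, h3⟩ := upu
    exact ⟨X, h2, (h3.trans h1.ge).antisymm (h X h2)⟩

open MeasureTheory in
theorem nrot : ¬ S1 (Om (Op (Icc (0 : ℝ) 1))) (Om (Op (Icc (0 : ℝ) 1))) := fun h => by
  obtain ⟨ε, e1, e2⟩ := ENNReal.exists_pos_sum_of_countable' (one_ne_zero (α := ENNReal)) ℕ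
  have h1 : ∀ W : Set ℝ, Subtype.val ⁻¹' W = (Set.univ : Set (Icc (0 : ℝ) 1)) → 1 ≤ volume W :=
    fun W hW => by
      have := measure_mono (μ := volume) (show Icc (0 : ℝ) 1 ⊆ W from fun x hx =>
        hW.ge (mem_univ ⟨x, hx⟩))
      simpa using this
  have h2 : ∀ n (F : Set (Icc (0 : ℝ) 1)), F.Finite → ∃ U ∈ (fun W : Set ℝ => Subtype.val ⁻¹' W) ''
      {W | IsOpen W ∧ volume W < ε n}, F ⊆ U := fun n F hF => by
    obtain ⟨W, w1, w2, w3⟩ := (Subtype.val '' F).exists_isOpen_lt_of_lt (μ := volume) (ε n)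
      (by rw [(hF.image _).measure_zero]; exact e1 n)
    exact ⟨_, ⟨W, ⟨w2, w3⟩, rfl⟩, image_subset_iff.1 w1⟩
  refine (h (fun n => (fun W : Set ℝ => Subtype.val ⁻¹' W) '' {W | IsOpen W ∧ volume W < ε n})
    fun n => ⟨⟨?_, eq_univ_of_forall fun z => (h2 n {z} (finite_singleton z)).imp
      fun _ h => ⟨h.1, h.2 rfl⟩, ?_⟩, h2 n⟩).elim fun U ⟨u1, u2⟩ => ?_
  · rintro _ ⟨W, hW, rfl⟩
    exact hW.1.preimage continuous_subtype_val
  · rintro ⟨W, w1, w2⟩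
    exact (w1.2.trans ((ENNReal.le_tsum n).trans_lt e2)).not_ge (h1 W w2)
  · choose W w1 w2 using u1
    refine ((measure_iUnion_le W).trans_lt ((ENNReal.tsum_le_tsum fun n =>
      (w1 n).2.le).trans_lt e2)).not_ge (h1 _ ?_)
    rw [preimage_iUnion, ← u2.1.2.1, sUnion_range]
    exact iUnion_congr w2

end Pool.Agent.H.MP_7b7e09_gt
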